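import Pool.Agent.TH680.NPP.Chg

/-! Oracles in `P/poly` relative to another oracle. -/

set_option autoImplicit false

namespace Pool.Agent.TH442.NU

open Pool.Agent.NPC Pool.Agent.H620R2.Gauge Pool.Agent.H591R3.PHG Pool.Agent.H622R2
  Pool.Agent.W900.IE Pool.Agent.TH680 Pool.Agent.TH680.NPP

/-- The oracle `A` can be computed relative to `B` with advice: the advice `tab N` serves for the
questions of length at most `N`. -/
def Tabled (A B : Oracle) : Prop :=
  ∃ (D : List Bool → Oracle) (tab : ℕ → List Bool) (r : Polynomial ℕ),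
    IsFP B (fun s => [D (unpair s).1 (unpair s).2]) ∧ (∀ N, (tab N).length ≤ r.eval N) ∧
      ∀ N q, q.length ≤ N → D (tab N) q = A q

theorem tr_fp {A B : Oracle} {D : List Bool → Oracle} {tab : ℕ → List Bool}
    (hD : IsFP B (fun s => [D (unpair s).1 (unpair s).2]))
    (hA : ∀ N q, q.length ≤ N → D (tab N) q = A q) {V : List Bool → List Bool}
    (hV : IsFP A V) : ∃ (F : List Bool → List Bool) (Q : Polynomial ℕ), IsFP B F ∧
      ∀ (x : List Bool) (N : ℕ), Q.eval x.length ≤ N → F (pairBits (tab N) x) = V x := by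
  obtain ⟨M, hM⟩ := hV
  obtain ⟨F, hF, h⟩ := isFP_param hD M
  obtain ⟨qb, hqb⟩ := Alg.out_local M
  refine ⟨F, qb, hF, fun x N hN => h _ _ _ ?_⟩
  obtain ⟨Q, _, hQ, hQA⟩ := hqb A x
  rw [hQA _ fun q hq => ?_, hM]
  exact hA _ _ ((hQ q hq).trans hN)

/-- the translation of languages -/
def Tr (tab : ℕ → List Bool) (C C' : Set (List Bool) → Prop) : Prop :=
  ∀ L', C L' → ∃ (L'' : Set (List Bool)) (Q : Polynomial ℕ), C' L'' ∧
    ∀ (x : List Bool) (N : ℕ), Q.eval x.length ≤ N → (x ∈ L' ↔ pairBits (tab N) x ∈ L'')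

section tr

variable {A B : Oracle} {D : List Bool → Oracle} {tab : ℕ → List Bool}

theorem tr_p (hD : IsFP B (fun s => [D (unpair s).1 (unpair s).2]))
    (hA : ∀ N q, q.length ≤ N → D (tab N) q = A q) : Tr tab (IsP A) (IsP B) := by
  rintro L' ⟨V, hV, hL⟩
  obtain ⟨F, Q, hF, h⟩ := tr_fp hD hA hV
  exact ⟨{y | F y = [true]}, Q, ⟨F, hF, fun _ => Iff.rfl⟩, fun x N hN => by
    rw [hL, Set.mem_ofPred_eq, h x N hN]⟩

theorem tr_np (hD : IsFP B (fun s => [D (unpair s).1 (unpair s).2]))
    (hA : ∀ N q, q.length ≤ N → D (tab N) q = A q) : Tr tab (IsNP A) (IsNP B) := by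
  rintro L' ⟨V, p, hV, hL⟩
  obtain ⟨F, Q, hF, h⟩ := tr_fp hD hA hV
  have hg : Poly (fun u : List Bool => pairBits (unpair (unpair u).2).1
      (pairBits (unpair u).1 (unpair (unpair u).2).2)) :=
    poly_pairBits (poly_u1.comp poly_u2) (poly_pairBits poly_u1 (poly_u2.comp poly_u2))
  have h1 : PA B (fun u => F (pairBits (unpair (unpair u).2).1
      (pairBits (unpair u).1 (unpair (unpair u).2).2)) = [true]) :=
    ⟨_, hF.precomp hg, fun _ => Iff.rfl⟩
  have h3 : IsQ (PA B) false 0 _ := ⟨_, fun _ => 0, h1, UPoly.const 0, fun x => by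
    simp only [QC]; exact Iff.rfl⟩
  have h4 := h3.quant (b := true) (m₀ := fun y => p.eval (unpair y).2.length)
    (nice_pa B) (UPoly.eval (UPoly.length poly_u2) p)
  refine ⟨_, Q.comp (2 * p + 1 + Polynomial.X), isQ_pa_iff.1 h4, fun x N hN => ?_⟩
  rw [hL]
  simp only [Qf, if_true, Set.mem_ofPred_eq, unpair_pairBits]
  refine exists_congr fun w => and_congr_right fun hw => ?_
  rw [h]
  refine le_trans (eval_mono Q ?_) (by simpa [Polynomial.eval_comp] using hN)
  rw [length_pairBits]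
  omega

end tr

theorem wa_tr {tab : ℕ → List Bool} {r : Polynomial ℕ} (hr : ∀ N, (tab N).length ≤ r.eval N)
    {C C' : Set (List Bool) → Prop}
    (hpre : ∀ (L : Set (List Bool)) (g : List Bool → List Bool), C' L → Poly g →
      C' {x | g x ∈ L}) (h : Tr tab C C') {L : Set (List Bool)} (hL : WithAdvice C L) :
    WithAdvice C' L := by
  obtain ⟨L', a, q, hL', ha, hL⟩ := hL
  obtain ⟨L'', Q, h1, h2⟩ := h L' hL'
  have hg : Poly (fun y : List Bool => pairBits (unpair (unpair y).2).1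
      (pairBits (unpair y).1 (unpair (unpair y).2).2)) :=
    poly_pairBits (poly_u1.comp poly_u2) (poly_pairBits poly_u1 (poly_u2.comp poly_u2))
  refine ⟨_, fun n => pairBits (tab (Q.eval (2 * n + 1 + (a n).length))) (a n),
    Polynomial.C 2 * r.comp (Q.comp (Polynomial.C 2 * Polynomial.X + Polynomial.C 1 + q)) +
      Polynomial.C 1 + q, hpre _ _ h1 hg, fun n => ?_, fun x => ?_⟩
  · simp only [length_pairBits, Polynomial.eval_add, Polynomial.eval_mul, Polynomial.eval_C,
      Polynomial.eval_comp, Polynomial.eval_X]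
    have e1 := ha n
    have e2 := hr (Q.eval (2 * n + 1 + (a n).length))
    have e3 := eval_mono r (eval_mono Q (show 2 * n + 1 + (a n).length ≤ 2 * n + 1 + q.eval n by
      omega))
    omega
  · rw [hL]
    simp only [Set.mem_ofPred_eq, unpair_pairBits]
    exact h2 _ _ (by rw [length_pairBits])

/-- If `A` is in `P/poly` relative to `B` then `P/poly` relative to `A` is contained in `P/poly`
relative to `B`. -/
theorem ppoly_of {A B : Oracle} (h : Tabled A B) {L : Set (List Bool)}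
    (hL : WithAdvice (IsP A) L) : WithAdvice (IsP B) L := by
  obtain ⟨D, tab, r, hD, hr, hA⟩ := h
  exact wa_tr hr isP_pre (tr_p hD hA) hL

/-- The same for `NP/poly`. -/
theorem nppoly_of {A B : Oracle} (h : Tabled A B) {L : Set (List Bool)}
    (hL : WithAdvice (IsNP A) L) : WithAdvice (IsNP B) L := by
  obtain ⟨D, tab, r, hD, hr, hA⟩ := h
  exact wa_tr hr (fun _ _ h hg => isNP_pre h hg) (tr_np hD hA) hL

/-- Oracles in `P`. -/
theorem tabled_of_poly {A B : Oracle} (h : Poly A) : Tabled A B :=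
  ⟨fun _ => A, fun _ => [], 0, IsFP.of_poly (Poly.cons (h.comp poly_u2) (NPC.Poly.const [])),
    fun N => by simp, fun _ _ _ => rfl⟩

theorem tabled_emp {B : Oracle} : Tabled (fun _ => false) B := tabled_of_poly (NPC.Poly.const false)

/-- Oracles with the same nonuniform classes. -/
theorem iff_emp {A : Oracle} (h : Tabled A fun _ => false) (L : Set (List Bool)) :
    (WithAdvice (IsP A) L ↔ WithAdvice (IsP fun _ => false) L) ∧
      (WithAdvice (IsNP A) L ↔ WithAdvice (IsNP fun _ => false) L) :=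
  ⟨⟨ppoly_of h, ppoly_of tabled_emp⟩, ⟨nppoly_of h, nppoly_of tabled_emp⟩⟩

/-- Closure of `P/poly` under complement. -/
theorem ppoly_compl {A : Oracle} {L : Set (List Bool)} (h : WithAdvice (IsP A) L) :
    WithAdvice (IsP A) Lᶜ := by
  obtain ⟨L', a, q, h1, h2, h3⟩ := h
  refine ⟨L'ᶜ, a, q, isP_compl h1, h2, fun x => ?_⟩
  rw [Set.mem_compl_iff, Set.mem_compl_iff, h3]

theorem wa_of {C : Set (List Bool) → Prop}
    (hpre : ∀ (L : Set (List Bool)) (g : List Bool → List Bool), C L → Poly g →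
      C {x | g x ∈ L}) {L : Set (List Bool)} (h : C L) : WithAdvice C L :=
  ⟨{z | (unpair z).1 ∈ L}, fun _ => [], 0, hpre L _ h poly_u1, fun n => by simp, fun x => by
    simp only [Set.mem_ofPred_eq, unpair_pairBits]⟩

theorem wa_mono {C C' : Set (List Bool) → Prop} (h : ∀ L, C L → C' L) {L : Set (List Bool)}
    (hL : WithAdvice C L) : WithAdvice C' L := by
  obtain ⟨L', a, q, h1, h2, h3⟩ := hL
  exact ⟨L', a, q, h _ h1, h2, h3⟩

/-- If the hierarchy is infinite then `coNP` is not contained in `NP/poly`. -/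
theorem conp_of_infinite {A : Oracle} (h : InfinitePH A) :
    ∃ L, IsNP A L ∧ ¬ WithAdvice (IsNP A) Lᶜ := by
  by_contra hcon
  push Not at hcon
  refine finite_of_conp (A := A) (fun L hL => ?_) h
  have := hcon Lᶜ hL
  rwa [compl_compl] at this

/-- ... hence `NP/poly` is not contained in `P/poly`. -/
theorem not_sub_of_conp {A : Oracle} (h : ∃ L, IsNP A L ∧ ¬ WithAdvice (IsNP A) Lᶜ) :
    ¬ ∀ L, WithAdvice (IsNP A) L → WithAdvice (IsP A) L := by
  obtain ⟨L, h1, h2⟩ := h
  intro h3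
  exact h2 (wa_mono (fun _ => isNP_of_p) (ppoly_compl (h3 L
    (wa_of (fun _ _ h hg => isNP_pre h hg) h1))))

end Pool.Agent.TH442.NU
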