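import Pool.Agent.TH442.RS.Easy
import Pool.Agent.TH442.NU.Rel
import Pool.Agent.TH442.RP.Dfn

/-! Relations with small supports are in `P/poly`. -/

set_option autoImplicit false

namespace Pool.Agent.TH442.NU

open Pool.Agent.NPC Pool.Agent.H620R2.Gauge Pool.Agent.H591R3.PHG Pool.Agent.H622R2
  Pool.Agent.W900.IE Pool.Agent.TH680 Pool.Agent.TH680.NPP
open Pool.Agent.TH442.RS

variable {K : ℕ}

/-- The values are given by the patterns. -/
theorem ora_iff_pat (hK : 1 ≤ K) {R : Strs K} {S F : (n : ℕ) → Finset (Fin n → Bool)}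
    (hS : ∀ n, Sup (X := Fin n → Bool) (R n) (S n))
    (hF : ∀ n, ∀ x : Fin K → Fin n → Bool, ∃ τ : Equiv.Perm (Fin n → Bool),
      (∀ y ∈ S n, τ y = y) ∧ ∀ i, τ (x i) ∈ S n ∪ F n) {n : ℕ} {t : List (List Bool)}
    (ht : Tup K n t) :
    ora R t.flatten = true ↔ ∃ z, Tup K n z ∧
      (∀ i < K, (Dor R S F (false :: t.getD i []) = true ∨
        Dor R S F (false :: z.getD i []) = true) → z.getD i [] = t.getD i []) ∧
      (∀ i < K, ∀ j < K, (z.getD i [] = z.getD j [] ↔ t.getD i [] = t.getD j [])) ∧
      Dor R S F (true :: z.flatten) = true := by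
  set D := Dor R S F with hD
  constructor
  · intro hq
    set x : Fin K → Fin n → Bool := fun i => fn n (t.getD i []) with hx
    obtain ⟨τ, hτ, hτ'⟩ := hF n x
    set z : Fin K → Fin n → Bool := fun i => τ (x i) with hz
    have e1 : ∀ i : Fin K, t.getD i [] = List.ofFn (x i) := fun i => getD_fn ht i
    have e2 : ∀ i : Fin K, (lst z).getD i [] = List.ofFn (z i) := fun i => getD_lst z i
    refine ⟨lst z, tup_lst z, ?_, ?_, ?_⟩
    · intro i hi
      have e3 := e1 ⟨i, hi⟩
      have e4 := e2 ⟨i, hi⟩
      dsimp only at e3 e4 ⊢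
      rw [e3, e4, hD, dor_false, dor_false]
      rintro (h | h)
      · rw [hz]
        dsimp only
        rw [hτ _ h]
      · have e5 : z ⟨i, hi⟩ = x ⟨i, hi⟩ := τ.injective (hτ _ h)
        rw [e5]
    · intro i hi j hj
      have e3 := e1 ⟨i, hi⟩
      have e4 := e2 ⟨i, hi⟩
      have e5 := e1 ⟨j, hj⟩
      have e6 := e2 ⟨j, hj⟩
      dsimp only at e3 e4 e5 e6 ⊢
      rw [e3, e4, e5, e6, List.ofFn_injective.eq_iff, List.ofFn_injective.eq_iff]
      exact τ.injective.eq_iff
    · rw [hD, dor_true]
      refine ⟨n, z, hτ', rfl, ?_⟩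
      have e3 := congrFun (hS n τ hτ) x
      rw [ora_flatten hK R ht] at hq
      have e4 : R n z = R n x := e3
      rw [e4, hx]
      exact hq
  · rintro ⟨z, h15, h16, h17, h18⟩
    rw [hD, dor_true] at h18
    obtain ⟨m, z', hz', hzz, hRz⟩ := h18
    set x : Fin K → Fin n → Bool := fun i => fn n (t.getD i []) with hx
    set y : Fin K → Fin n → Bool := fun i => fn n (z.getD i []) with hy
    have e1 : ∀ i : Fin K, t.getD i [] = List.ofFn (x i) := fun i => getD_fn ht i
    have e2 : ∀ i : Fin K, z.getD i [] = List.ofFn (y i) := fun i => getD_fn h15 i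
    have e3 : ∀ i : Fin K, x i ∈ S n ∨ y i ∈ S n → y i = x i := by
      intro i h
      have e4 := h16 i i.2
      rw [e1, e2, hD, dor_false, dor_false] at e4
      exact List.ofFn_injective (e4 h)
    have e5 : ∀ i j : Fin K, y i = y j ↔ x i = x j := by
      intro i j
      have e6 := h17 i i.2 j j.2
      rw [e1, e2, e1, e2, List.ofFn_injective.eq_iff, List.ofFn_injective.eq_iff] at e6
      exact e6
    obtain ⟨τ, hτ, hτ'⟩ := exists_perm_of_pattern (S := S n) (x := x) (z := y)
      (fun i h => e3 i (Or.inl h)) (fun i h => e3 i (Or.inr h)) e5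
    have e7 := congrFun (hS n τ hτ) x
    have e8 : R n y = R n x := by
      have : y = fun i => τ (x i) := funext hτ'
      rw [this]
      exact e7
    have e9 : ora R z.flatten = true := by rw [hzz, ora_lst hK, hRz]
    rw [ora_flatten hK R h15] at e9
    rw [ora_flatten hK R ht]
    exact e8.symm.trans e9

/-! ### Blocks -/

/-- the string as a sequence of `K` strings of the same length -/
def blks (K : ℕ) (q : List Bool) : List (List Bool) :=
  (List.range K).map (fun i => (q.drop (i * (q.length / K))).take (q.length / K))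

theorem take_drop_flatten {n : ℕ} : ∀ (t : List (List Bool)), (∀ b ∈ t, b.length = n) →
    ∀ i : ℕ, i < t.length → (t.flatten.drop (i * n)).take n = t.getD i [] := by
  intro t
  induction t with
  | nil => intro _ i hi; simp at hi
  | cons b t ih =>
    intro h i hi
    have hb : b.length = n := h b (by simp)
    rw [List.flatten_cons]
    rcases i with _ | i
    · rw [zero_mul, List.drop_zero, List.take_append_of_le_length (by omega),
        List.take_of_length_le (by omega)]
      simp
    · rw [List.drop_append, List.drop_of_length_le (by rw [hb]; nlinarith), List.nil_append,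
        show (i + 1) * n - b.length = i * n by rw [hb, add_mul]; omega,
        ih (fun c hc => h c (by simp [hc])) i (by simpa using hi)]
      simp

theorem blks_flatten (hK : 1 ≤ K) {n : ℕ} {t : List (List Bool)} (ht : Tup K n t) :
    blks K t.flatten = t := by
  have hl : t.flatten.length / K = n := by
    rw [length_flatten ht]
    exact Nat.mul_div_cancel_left n (by omega)
  unfold blks
  rw [hl]
  apply List.ext_getElem
  · simp [ht.1]
  · intro i h1 h2
    rw [List.getElem_map, List.getElem_range, take_drop_flatten t ht.2 i h2,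
      List.getD_eq_getElem?_getD, List.getElem?_eq_getElem h2]
    rfl

/-- the tuples `t` and `z` are alike -/
def cnd (K : ℕ) (T t z : List (List Bool)) : Bool :=
  (List.range K).all (fun i => !(decide (false :: t.getD i [] ∈ T) ||
    decide (false :: z.getD i [] ∈ T)) || decide (z.getD i [] = t.getD i [])) &&
  (List.range K).all (fun i => (List.range K).all (fun j =>
    !(decide (z.getD i [] = z.getD j []) ^^ decide (t.getD i [] = t.getD j []))))

theorem cnd_iff {T t z : List (List Bool)} : cnd K T t z = true ↔
    (∀ i < K, (false :: t.getD i [] ∈ T ∨ false :: z.getD i [] ∈ T) →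
      z.getD i [] = t.getD i []) ∧
    (∀ i < K, ∀ j < K, (z.getD i [] = z.getD j [] ↔ t.getD i [] = t.getD j [])) := by
  unfold cnd
  rw [Bool.and_eq_true, List.all_eq_true, List.all_eq_true]
  refine and_congr (forall_congr' fun i => ?_) (forall_congr' fun i => ?_)
  · rw [List.mem_range]
    refine imp_congr_right fun _ => ?_
    simp only [Bool.or_eq_true, Bool.not_eq_true', Bool.or_eq_false_iff, decide_eq_true_eq,
      decide_eq_false_iff_not]
    tauto
  · rw [List.mem_range]
    refine imp_congr_right fun _ => ?_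
    rw [List.all_eq_true]
    refine forall_congr' fun j => ?_
    rw [List.mem_range]
    refine imp_congr_right fun _ => ?_
    by_cases h1 : z.getD i [] = z.getD j [] <;> by_cases h2 : t.getD i [] = t.getD j [] <;>
      simp only [h1, h2, decide_true, decide_false, Bool.xor_self, Bool.not_false, Bool.xor_false,
        Bool.xor_true, Bool.not_true, iff_true, iff_false, not_true, Bool.false_eq_true, iff_self]

/-- the value, computed from the table -/
def ev (K : ℕ) (T : List (List Bool)) (q : List Bool) : Bool :=
  decide (q.length % K = 0) && T.any (fun e => decide (e.head? = some true) &&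
    (decide (e.tail.length = q.length) && cnd K T (blks K q) (blks K e.tail)))

theorem ev_eq (hK : 1 ≤ K) {R : Strs K} {S F : (n : ℕ) → Finset (Fin n → Bool)}
    (hS : ∀ n, Sup (X := Fin n → Bool) (R n) (S n))
    (hF : ∀ n, ∀ x : Fin K → Fin n → Bool, ∃ τ : Equiv.Perm (Fin n → Bool),
      (∀ y ∈ S n, τ y = y) ∧ ∀ i, τ (x i) ∈ S n ∪ F n) {N : ℕ} {q : List Bool}
    (hq : q.length + 1 ≤ N) {T : List (List Bool)}
    (hT : ∀ x, x ∈ T ↔ x.length ≤ N ∧ Dor R S F x = true) : ev K T q = ora R q := by
  by_cases hd : q.length % K = 0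
  · obtain ⟨n, hn⟩ := Nat.dvd_of_mod_eq_zero hd
    obtain ⟨t, ht, rfl⟩ := exists_tup K n q hn
    have hlt : t.flatten.length = K * n := length_flatten ht
    have hnl : n ≤ t.flatten.length := by rw [hlt]; nlinarith
    have hel : ∀ {t : List (List Bool)}, Tup K n t → ∀ i < K, (t.getD i []).length = n := by
      intro t ht i hi
      have h1 : i < t.length := by rw [ht.1]; exact hi
      rw [List.getD_eq_getElem?_getD, List.getElem?_eq_getElem h1]
      exact ht.2 _ (List.getElem_mem h1)
    rw [Bool.eq_iff_iff, ora_iff_pat hK hS hF ht]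
    unfold ev
    rw [hd, decide_eq_true rfl, Bool.true_and, List.any_eq_true, blks_flatten hK ht]
    constructor
    · rintro ⟨e, he, h1⟩
      rw [Bool.and_eq_true, Bool.and_eq_true, decide_eq_true_eq, decide_eq_true_eq] at h1
      obtain ⟨h1, h2, h3⟩ := h1
      obtain ⟨w, rfl⟩ : ∃ w, e = true :: w := by
        cases e with
        | nil => simp at h1
        | cons a w =>
          simp only [List.head?_cons, Option.some.injEq] at h1
          exact ⟨w, by rw [h1]⟩
      rw [List.tail_cons] at h2 h3
      obtain ⟨z, hz, rfl⟩ := exists_tup K n w (by rw [h2, hlt])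
      rw [blks_flatten hK hz, cnd_iff] at h3
      refine ⟨z, hz, fun i hi h4 => h3.1 i hi ?_, h3.2, ((hT _).1 he).2⟩
      rw [hT, hT]
      refine h4.imp (fun h5 => ⟨?_, h5⟩) (fun h5 => ⟨?_, h5⟩)
      · rw [List.length_cons, hel ht i hi]
        omega
      · rw [List.length_cons, hel hz i hi]
        omega
    · rintro ⟨z, hz, h1, h2, h3⟩
      have hlz : z.flatten.length = K * n := length_flatten hz
      refine ⟨true :: z.flatten, (hT _).2 ⟨by rw [List.length_cons, hlz]; omega, h3⟩, ?_⟩
      rw [Bool.and_eq_true, Bool.and_eq_true, decide_eq_true_eq, decide_eq_true_eq,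
        List.tail_cons, blks_flatten hK hz, cnd_iff]
      refine ⟨rfl, by rw [hlz, hlt], fun i hi h4 => h1 i hi ?_, h2⟩
      rw [hT, hT] at h4
      exact h4.imp (fun h5 => h5.2) (fun h5 => h5.2)
  · unfold ev ora
    rw [if_neg hd, decide_eq_false hd, Bool.false_and]

theorem poly_drop {α : Type} [TEnc α] {l : α → List Bool} {n : α → ℕ} (hl : Poly l)
    (hn : Poly n) : Poly (fun a => (l a).drop (n a)) := by
  have h1 : Poly (fun a => ((l a).reverse.take ((l a).length - n a)).reverse) :=
    Poly.reverse (RP.poly_takeN (Poly.reverse hl) (Poly.sub (Poly.length hl) hn))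
  refine h1.congr fun a => ?_
  rw [List.take_reverse, List.reverse_reverse]
  rcases Nat.le_total (n a) (l a).length with h | h
  · rw [show (l a).length - ((l a).length - n a) = n a by omega]
  · rw [List.drop_of_length_le h, List.drop_of_length_le (by omega)]

theorem poly_blks {α : Type} [TEnc α] {l : α → List Bool} (hl : Poly l) :
    Poly (fun a => blks K (l a)) := by
  have h1 : Poly (fun p : α × ℕ => (l p.1).length / K) :=
    Poly.div (Poly.length (hl.comp (Poly.fst Poly.id))) (NPC.Poly.const K)
  have h2 : Poly (fun p : α × ℕ => ((l p.1).drop (p.2 * ((l p.1).length / K))).take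
      ((l p.1).length / K)) :=
    RP.poly_takeN (poly_drop (hl.comp (Poly.fst Poly.id)) (Poly.mul (Poly.snd Poly.id) h1)) h1
  exact NPC.Poly.map (F := fun a i => ((l a).drop (i * ((l a).length / K))).take
    ((l a).length / K)) (NPC.Poly.const (List.range K)) h2

theorem poly_cnd {α : Type} [TEnc α] {T t z : α → List (List Bool)} (hT : Poly T) (ht : Poly t)
    (hz : Poly z) : Poly (fun a => cnd K (T a) (t a) (z a)) := by
  unfold cnd
  have hr : Poly (fun _ : α => List.range K) := NPC.Poly.const _
  fun_prop

theorem poly_ev : Poly (fun p : List (List Bool) × List Bool => ev K p.1 p.2) := by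
  unfold ev
  have h1 : Poly (fun p : (List (List Bool) × List Bool) × List Bool =>
      cnd K p.1.1 (blks K p.1.2) (blks K p.2.tail)) :=
    poly_cnd (Poly.fst (Poly.fst Poly.id)) (poly_blks (Poly.snd (Poly.fst Poly.id)))
      (poly_blks (Poly.tail (Poly.snd Poly.id)))
  have h2 : Poly (fun p : List (List Bool) × List Bool => decide (p.2.length % K = 0)) :=
    Poly.decide_eq (Poly.mod (Poly.length (Poly.snd Poly.id)) (NPC.Poly.const K))
      (NPC.Poly.const 0)
  refine Poly.and h2 (NPC.Poly.any (p := fun (p : List (List Bool) × List Bool) e =>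
    decide (e.head? = some true) &&
    (decide (e.tail.length = p.2.length) && cnd K p.1 (blks K p.2) (blks K e.tail)))
      (Poly.fst Poly.id) ?_)
  exact Poly.and (Poly.decide_eq (Poly.head? (Poly.snd Poly.id)) (NPC.Poly.const (some true)))
    (Poly.and (Poly.decide_eq (Poly.length (Poly.tail (Poly.snd Poly.id)))
      (Poly.length (Poly.snd (Poly.fst Poly.id)))) h1)

/-- **Relations with small supports.** -/
theorem tabled_of_supp (hK : 1 ≤ K) {R : Strs K} (h : ∃ c : ℕ, ∀ n, supp (R n) ≤ n ^ c + c) :
    Tabled (ora R) (fun _ => false) := by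
  obtain ⟨c, hc⟩ := h
  have h1 : ∀ n, ∃ S : Finset (Fin n → Bool), S.card = supp (R n) ∧
      Sup (X := Fin n → Bool) (R n) S := fun n => exists_sup (X := Fin n → Bool) (R n)
  choose S hS hS' using h1
  have h2 := fun n => exists_pattern K (S n)
  choose F hF hF' using h2
  have hsp := sparse_dor hK R (c := c) (fun n => by rw [hS]; exact hc n) hF
  obtain ⟨r, hr⟩ := tab_poly hsp
  refine ⟨fun τ q => ev K ((unbits (List (List Bool)) τ).getD []) q,
    fun N => tab (Dor R S F) (N + 1), r.comp (Polynomial.X + 1), IsFP.of_poly ?_, fun N => ?_,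
    fun N q hq => ?_⟩
  · refine Poly.cons (poly_ev.comp (f := fun s : List Bool =>
      ((unbits (List (List Bool)) (unpair s).1).getD [], (unpair s).2)) (Poly.pair
        (Poly.optGetD (poly_unbits.comp poly_u1) (NPC.Poly.const [])) poly_u2))
        (NPC.Poly.const [])
  · have := hr (N + 1)
    simpa [Polynomial.eval_comp] using this
  · unfold tab
    dsimp only
    rw [unbits_bits, Option.getD_some]
    refine ev_eq hK hS' hF' (N := N + 1) (by omega) fun x => ?_
    rw [Finset.mem_toList, mem_tabF]

end Pool.Agent.TH442.NU
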