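import Pool.Agent.TH442.RP.Easy
import Pool.Agent.TH442.NU.Str

/-! Permutations moving few strings. -/

set_option autoImplicit false

namespace Pool.Agent.TH442.NU

open Pool.Agent.NPC Pool.Agent.H620R2.Gauge Pool.Agent.H591R3.PHG Pool.Agent.H622R2
  Pool.Agent.W900.IE Pool.Agent.TH680 Pool.Agent.TH680.NPP
open Pool.Agent.TH442.RP

theorem lead_eq (q : List Bool) : ((List.range q.length).filter (fun j =>
    (q.take (j + 1)).all (fun b => b))).length = (q.takeWhile id).length := by
  induction q with
  | nil => simp
  | cons b q ih =>
    rw [List.length_cons, List.range_succ_eq_map, List.filter_cons]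
    cases b with
    | true =>
      rw [if_pos (by simp), List.length_cons, List.filter_map, List.length_map,
        List.takeWhile_cons_of_pos (by rfl), List.length_cons, ← ih]
      rfl
    | false =>
      rw [if_neg (by simp), List.takeWhile_cons_of_neg (by simp), List.filter_map,
        List.length_map]
      have : (List.range q.length).filter ((fun j => ((false :: q).take (j + 1)).all
          (fun b => b)) ∘ Nat.succ) = [] := by
        rw [List.filter_eq_nil_iff]
        intro j _
        simp
      rw [this]
      rfl

theorem dropWhile_tail (q : List Bool) :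
    (q.dropWhile id).tail = q.drop ((q.takeWhile id).length + 1) := by
  have h := List.takeWhile_append_dropWhile (p := id) (l := q)
  conv_rhs => rw [← h]
  rw [List.takeWhile_append_dropWhile (p := id) (l := q)]
  conv_rhs => enter [2]; rw [← h]
  rw [← List.drop_drop, List.drop_left, List.drop_one]

theorem poly_one : Poly (ora 1) := by
  have h1 : Poly (fun p : List Bool × ℕ => (p.1.take (p.2 + 1)).all (fun b => b)) :=
    NPC.Poly.all (p := fun _ b => b) (poly_takeN (Poly.fst Poly.id)
      (Poly.add (Poly.snd Poly.id) (NPC.Poly.const 1))) (Poly.snd Poly.id)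
  have h2 : Poly (fun q : List Bool => (q.takeWhile id).length) :=
    (Poly.length (NPC.Poly.filter (p := fun (q : List Bool) j => (q.take (j + 1)).all (fun b => b))
      (Poly.range_length Poly.id) h1)).congr lead_eq
  have h3 : Poly (fun q : List Bool => (q.drop ((q.takeWhile id).length + 1)).getD
      (q.takeWhile id).length false) :=
    Poly.getD (poly_drop Poly.id (Poly.add h2 (NPC.Poly.const 1))) h2 (NPC.Poly.const false)
  refine h3.congr fun q => ?_
  rw [ora, app_one, dropWhile_tail]

/-- **Few moved strings.** -/
theorem iff_of_moved {π : Perms} (h : ∃ c : ℕ, ∀ n, moved π n ≤ n ^ c + c)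
    (L : Set (List Bool)) :
    (WithAdvice (IsP (ora π)) L ↔ WithAdvice (IsP fun _ => false) L) ∧
      (WithAdvice (IsNP (ora π)) L ↔ WithAdvice (IsNP fun _ => false) L) := by
  obtain ⟨c, hc⟩ := h
  have h1 := sparse_of_moved hc
  have h2 := iff_emp (tabled_of_poly (B := fun _ => false) poly_one) L
  exact ⟨(ppoly_iff h1 L).trans h2.1, (nppoly_iff h1 L).trans h2.2⟩

end Pool.Agent.TH442.NU
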